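import Pool.Agent.Helper9.FL.Stm
import Pool.Agent.Helper90.FJ.Gen

/-! Project FL, part of the package FSEC: reduction modulo the place and density of the slice -/

set_option autoImplicit false
set_option linter.unusedSectionVars false

namespace Pool.Agent.Helper41.FL

open FF Module MvPolynomial Pool.Agent.Helper9.FJ Pool.Agent.Helper9.PP Pool.Agent.Helper9.GR
open Pool.Agent.Helper9.FL Pool.Agent.Helper90.FJ

variable {r l : ℕ}

/-- `yx` over a ring -/
noncomputable def yxR {R : Type} [CommRing R] (k : Fin l → ℕ) (blk : Fin r → ℕ) :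
    Matrix (Fin r) (Fin r) (MvPolynomial (FrF k blk) R) :=
  Matrix.of fun a b => (if a = b then 1 else 0) +
    if h : blk a = blk b ∧ ∃ j, (b : ℕ) < k j ∧ k j ≤ (a : ℕ) then X ⟨(a, b), h⟩ else 0

/-- `vrow` over a ring -/
noncomputable def vrowR {R : Type} [CommRing R] (blk : Fin r → ℕ) (G : Matrix (Fin r) (Fin r) R) :
    Matrix (Fin r) (Fin r) (MvPolynomial (VV blk) R) :=
  Matrix.of fun a c => ∑ b : {b : Fin r // blk a ≤ blk b}, MvPolynomial.C (G b.1 c) * X ⟨a, b⟩

/-- `pls` over a ring -/
noncomputable def plsR {R : Type} [CommRing R] (k : Fin l → ℕ) (blk : Fin r → ℕ)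
    (G : Matrix (Fin r) (Fin r) R) : Vr (fun j => Rk (k j) r) → MvPolynomial (VV blk) R :=
  fun x => (Matrix.of fun (a c : Fin r) => if h : (a : ℕ) < k x.1 then
    (if c = sub (k x.1) r x.2 ⟨a, h⟩ then (1 : MvPolynomial (VV blk) R) else 0)
      else vrowR blk G a c).det

theorem plsR_map {R S : Type} [CommRing R] [CommRing S] (θ : R →+* S) (k : Fin l → ℕ)
    (blk : Fin r → ℕ) (G : Matrix (Fin r) (Fin r) R) (x : Vr (fun j => Rk (k j) r)) :
    MvPolynomial.map θ (plsR k blk G x) = plsR k blk (G.map θ) x := by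
  unfold plsR
  rw [RingHom.map_det, RingHom.mapMatrix_apply]
  congr 1
  ext1 a c
  rw [Matrix.map_apply, Matrix.of_apply, Matrix.of_apply]
  split_ifs
  · exact _root_.map_one _
  · exact _root_.map_zero _
  · simp only [vrowR, Matrix.of_apply, map_sum, _root_.map_mul, MvPolynomial.map_C,
      MvPolynomial.map_X, Matrix.map_apply]

/-- the point of the slice over a ring -/
noncomputable def slR {R : Type} [CommRing R] (k : Fin l → ℕ) (blk : Fin r → ℕ)
    (Y : Matrix (Fin r) (Fin r) R) : Vr (fun j => Rk (k j) r) → MvPolynomial (FrF k blk) R :=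
  fun x => plu (fc (k x.1) (Y.map MvPolynomial.C * yxR k blk)) x.2

theorem fc_mapR {R S : Type} [CommRing R] [CommRing S] (θ : R →+* S) (k : ℕ)
    (M : Matrix (Fin r) (Fin r) R) : (fc k M).map θ = fc k (M.map θ) := by
  ext i c
  simp only [fc, Matrix.map_apply, Matrix.of_apply]
  split_ifs
  · rfl
  · exact _root_.map_zero _

theorem slR_map {R S : Type} [CommRing R] [CommRing S] (θ : R →+* S) (k : Fin l → ℕ)
    (blk : Fin r → ℕ) (Y : Matrix (Fin r) (Fin r) R) (x : Vr (fun j => Rk (k j) r)) :
    MvPolynomial.map θ (slR k blk Y x) = slR k blk (Y.map θ) x := by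
  unfold slR
  have h2 := congrFun (plu_map (MvPolynomial.map θ)
    (fc (k x.1) (Y.map MvPolynomial.C * yxR k blk))) x.2
  rw [← h2, fc_mapR]
  have h3 : (Y.map MvPolynomial.C * yxR k blk :
      Matrix (Fin r) (Fin r) (MvPolynomial (FrF k blk) R)).map (MvPolynomial.map θ) =
      (Y.map θ).map MvPolynomial.C * yxR k blk := by
    rw [Matrix.map_mul]
    congr 1
    · ext1 i j
      simp only [Matrix.map_apply, MvPolynomial.map_C]
    · ext1 i j
      simp only [yxR, Matrix.map_apply, Matrix.of_apply, _root_.map_add]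
      congr 1
      · split_ifs
        · exact _root_.map_one _
        · exact _root_.map_zero _
      · split_ifs
        · exact MvPolynomial.map_X _ _
        · exact _root_.map_zero _
  rw [h3]

theorem map_aevalR {R S σ τ : Type} [CommRing R] [CommRing S] (θ : R →+* S)
    (g : σ → MvPolynomial τ R) (F : MvPolynomial σ R) :
    MvPolynomial.map θ (aeval g F) = aeval (fun x => MvPolynomial.map θ (g x))
      (MvPolynomial.map θ F) := by
  induction F using MvPolynomial.induction_on with
  | C a => simp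
  | add p q hp hq => rw [_root_.map_add, _root_.map_add, hp, hq, _root_.map_add, _root_.map_add]
  | mul_X p n hp =>
    rw [_root_.map_mul, _root_.map_mul, hp, aeval_X, _root_.map_mul, MvPolynomial.map_X,
      _root_.map_mul, aeval_X]

theorem den_one (hDEN : S_DEN) {K : Type} [Field K] [Algebra ℂ K] [IsFF ℂ K] {r l : ℕ}
    (k : Fin l → ℕ) (hk : StrictMono k) (h0 : ∀ j, 0 < k j) (hr : ∀ j, k j < r)
    (blk : Fin r → ℕ) (hb : Monotone blk) (P : Place ℂ K) (Y U : Matrix (Fin r) (Fin r) K)
    (hY : ∀ i j, Ge P 0 (Y i j)) (hU : ∀ i j, Ge P 0 (U i j)) (hYU : Y * U = 1)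
    (a : Fin l → ℕ) (f : MvPolynomial (Vr (fun j => Rk (k j) r)) K) (hf : IsMh a f)
    (hfi : ∀ α, Ge P 0 (coeff α f))
    (h1 : ∀ α, Ge P 1 (coeff α (aeval (fun x : Vr (fun j => Rk (k j) r) =>
      plu (fc (k x.1) (Y.map MvPolynomial.C * yx k blk)) x.2) f))) :
    ∀ α, Ge P 1 (coeff α (aeval (pls k blk U) f)) := by
  classical
  obtain ⟨F0, hF0⟩ := exists_lift P hfi
  set Y0 : Matrix (Fin r) (Fin r) P.O := Matrix.of fun i j => ⟨Y i j, hY i j⟩ with hY0
  set U0 : Matrix (Fin r) (Fin r) P.O := Matrix.of fun i j => ⟨U i j, hU i j⟩ with hU0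
  have eY : Y0.map (io P) = Y := by ext i j; rfl
  have eU : U0.map (io P) = U := by ext i j; rfl
  have hYU0 : Y0 * U0 = 1 := by
    have h2 : (Y0 * U0).map (io P) = (1 : Matrix (Fin r) (Fin r) P.O).map (io P) := by
      rw [Matrix.map_mul, eY, eU, hYU]
      exact (Matrix.map_one _ (_root_.map_zero _) (_root_.map_one _)).symm
    exact Matrix.map_injective (io_injective P) h2
  -- the reduction
  have hYUc : Y0.map (theta P) * U0.map (theta P) = 1 := by
    rw [← Matrix.map_mul, hYU0]
    exact Matrix.map_one _ (_root_.map_zero _) (_root_.map_one _)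
  have hYd : (Y0.map (theta P)).det ≠ 0 := by
    intro h
    have h2 := congrArg Matrix.det hYUc
    rw [Matrix.det_mul, h, zero_mul, Matrix.det_one] at h2
    exact zero_ne_one h2
  have hUi : (Y0.map (theta P))⁻¹ = U0.map (theta P) := Matrix.inv_eq_right_inv hYUc
  have hMh : IsMh a (MvPolynomial.map (theta P) F0) := by
    intro α hα
    refine hf α ?_
    rw [← hF0, coeff_map]
    intro h2
    apply hα
    rw [coeff_map]
    have h3 : coeff α F0 = 0 := io_injective P (by rw [h2, _root_.map_zero])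
    rw [h3, _root_.map_zero]
  have hz : aeval (slR k blk (Y0.map (theta P))) (MvPolynomial.map (theta P) F0) = 0 := by
    have h2 := map_aevalR (theta P) (slR k blk Y0) F0
    have h3 : (fun x => MvPolynomial.map (theta P) (slR k blk Y0 x)) =
      slR k blk (Y0.map (theta P)) := funext fun x => slR_map _ _ _ _ _
    rw [h3] at h2
    rw [← h2]
    ext α
    rw [coeff_map, coeff_zero, theta_eq_zero, ← coeff_map, map_aevalR, hF0]
    have h4 : (fun x => MvPolynomial.map (io P) (slR k blk Y0 x)) = slR k blk Y := by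
      funext x
      rw [slR_map, eY]
    rw [h4]
    exact h1 α
  have hden := hDEN k hk h0 hr blk hb (Y0.map (theta P)) hYd a
    (MvPolynomial.map (theta P) F0) hMh hz
  rw [hUi] at hden
  intro α
  have h2 := map_aevalR (theta P) (plsR k blk U0) F0
  have h3 : (fun x => MvPolynomial.map (theta P) (plsR k blk U0 x)) =
    pls k blk (U0.map (theta P)) := funext fun x => plsR_map _ _ _ _ _
  rw [h3, hden] at h2
  have h4 := map_aevalR (io P) (plsR k blk U0) F0
  have h5 : (fun x => MvPolynomial.map (io P) (plsR k blk U0 x)) = pls k blk U := by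
    funext x
    rw [plsR_map, eU]
    rfl
  rw [h5, hF0] at h4
  rw [← h4, coeff_map, ← theta_eq_zero, ← coeff_map, h2, coeff_zero]

end Pool.Agent.Helper41.FL
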