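import Pool.Agent.Helper9.FL.Stm
import Pool.Agent.Helper9.GR.CB

/-! Project FL, package DEN: density of the slice -/

set_option autoImplicit false

namespace Pool.Agent.Helper41.FL

open Module MvPolynomial Pool.Agent.Helper9.FJ Pool.Agent.Helper9.PP Pool.Agent.Helper9.GR
open Pool.Agent.Helper9.FL

variable {r l : ℕ}

/-- the leading block, completed by the unit matrix -/
def lead {R : Type} [Zero R] [One R] (k : ℕ) (Z : Matrix (Fin r) (Fin r) R) :
    Matrix (Fin r) (Fin r) R :=
  Matrix.of fun a b => if (a : ℕ) < k ∧ (b : ℕ) < k then Z a b else if a = b then 1 else 0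

theorem lead_one {R : Type} [Zero R] [One R] (k : ℕ) :
    lead k (1 : Matrix (Fin r) (Fin r) R) = 1 := by
  ext a b
  simp only [lead, Matrix.of_apply, Matrix.one_apply]
  split_ifs <;> rfl

theorem lead_map {R S : Type} [CommRing R] [CommRing S] (θ : R →+* S) (k : ℕ)
    (Z : Matrix (Fin r) (Fin r) R) : (lead k Z).map θ = lead k (Z.map θ) := by
  ext a b
  simp only [lead, Matrix.map_apply, Matrix.of_apply]
  split_ifs <;> simp

/-- scaling -/
theorem lead_smul (k : ℕ) (c : ℂ) (Z : Matrix (Fin r) (Fin r) ℂ) :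
    lead k (c • Z) = Matrix.diagonal (fun a : Fin r => if (a : ℕ) < k then c else 1) * lead k Z := by
  ext a b
  rw [Matrix.diagonal_mul]
  simp only [lead, Matrix.of_apply, Matrix.smul_apply, smul_eq_mul]
  by_cases ha : (a : ℕ) < k
  · by_cases hb : (b : ℕ) < k
    · simp [ha, hb]
    · have : a ≠ b := fun h => hb (h ▸ ha)
      simp [ha, hb, this]
  · simp [ha]

theorem lead_smul_det (k : ℕ) {c : ℂ} (hc : c ≠ 0) {Z : Matrix (Fin r) (Fin r) ℂ}
    (h : (lead k Z).det ≠ 0) : (lead k (c • Z)).det ≠ 0 := by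
  rw [lead_smul, Matrix.det_mul, Matrix.det_diagonal]
  refine mul_ne_zero (Finset.prod_ne_zero_iff.2 fun a _ => ?_) h
  split_ifs
  · exact hc
  · exact one_ne_zero

theorem bt_inv {α : Type} [LinearOrder α] {M : Matrix (Fin r) (Fin r) ℂ} {b : Fin r → α}
    (hd : M.det ≠ 0) (hM : M.BlockTriangular b) : M⁻¹.BlockTriangular b := by
  have : Invertible M := Matrix.invertibleOfIsUnitDet M hd.isUnit
  exact Matrix.blockTriangular_inv_of_blockTriangular hM

/-- the factorisation of a generic block upper triangular matrix -/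
theorem factor {blk : Fin r → ℕ} (hblk : Monotone blk) {Z : Matrix (Fin r) (Fin r) ℂ}
    (hZ : Z.BlockTriangular blk) (κ : Fin r → ℕ) (hκ : ∀ b : Fin r, (b : ℕ) < κ b)
    (hdet : ∀ b, (lead (κ b) Z).det ≠ 0) :
    ∃ g : Matrix (Fin r) (Fin r) ℂ,
      (∀ a b : Fin r, (a : ℕ) < κ b → (Z * g) a b = if a = b then 1 else 0) ∧
      (∀ a b : Fin r, κ b ≤ (a : ℕ) → (Z * g) a b ≠ 0 → blk a = blk b) ∧
      (∀ c b : Fin r, κ b ≤ (c : ℕ) → g c b = 0) := by
  have h3 : ∀ c b : Fin r, κ b ≤ (c : ℕ) → (lead (κ b) Z)⁻¹ c b = 0 := by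
    intro c b hc
    have hbt : (lead (κ b) Z).BlockTriangular (fun a : Fin r => if (a : ℕ) < κ b then 0 else 1) := by
      intro i j hij
      simp only at hij
      by_cases hi : (i : ℕ) < κ b
      · rw [if_pos hi] at hij
        exact absurd hij (by omega)
      · by_cases hj : (j : ℕ) < κ b
        · have : i ≠ j := fun h => hi (h ▸ hj)
          simp [lead, hi, this]
        · rw [if_neg hi, if_neg hj] at hij
          exact absurd hij (by omega)
    refine bt_inv (hdet b) hbt ?_
    rw [if_pos (hκ b), if_neg (by omega)]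
    exact zero_lt_one
  refine ⟨Matrix.of fun c b => (lead (κ b) Z)⁻¹ c b, ?_, ?_, ?_⟩
  · intro a b ha
    have h1 : (lead (κ b) Z * (lead (κ b) Z)⁻¹) a b = (1 : Matrix (Fin r) (Fin r) ℂ) a b := by
      rw [Matrix.mul_nonsing_inv _ (hdet b).isUnit]
    rw [Matrix.one_apply] at h1
    rw [← h1, Matrix.mul_apply, Matrix.mul_apply]
    refine Finset.sum_congr rfl fun c _ => ?_
    rw [Matrix.of_apply]
    by_cases hc : (c : ℕ) < κ b
    · congr 1
      simp [lead, ha, hc]
    · rw [h3 c b (by omega), mul_zero, mul_zero]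
  · intro a b ha hne
    rw [Matrix.mul_apply] at hne
    obtain ⟨c, -, hc⟩ := Finset.exists_ne_zero_of_sum_ne_zero hne
    rw [Matrix.of_apply] at hc
    have hc1 := left_ne_zero_of_mul hc
    have hc2 := right_ne_zero_of_mul hc
    have h4 : blk a ≤ blk c := by
      by_contra h
      exact hc1 (hZ (not_le.1 h))
    have hbt : (lead (κ b) Z).BlockTriangular blk := by
      intro i j hij
      simp only [lead, Matrix.of_apply]
      have hne : i ≠ j := fun h => absurd hij (by rw [h]; exact lt_irrefl _)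
      rw [if_neg hne, hZ hij]
      split_ifs <;> rfl
    have h5 : blk c ≤ blk b := by
      by_contra h
      exact hc2 (bt_inv (hdet b) hbt (not_le.1 h))
    have h6 : blk b ≤ blk a := hblk (by
      rw [Fin.le_def]; exact ((hκ b).le.trans ha))
    omega
  · intro c b hc
    exact h3 c b hc

/-- the determinant of a block triangular matrix -/
theorem det_two {R : Type} [CommRing R] {k : ℕ} (hk : k ≤ r) (M : Matrix (Fin r) (Fin r) R)
    (h0 : ∀ a c : Fin r, k ≤ (a : ℕ) → (c : ℕ) < k → M a c = 0) :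
    M.det = (M.submatrix (Fin.castLE hk) (Fin.castLE hk)).det *
      (M.toSquareBlockProp (fun a : Fin r => ¬ (a : ℕ) < k)).det := by
  rw [M.twoBlockTriangular_det (fun a : Fin r => (a : ℕ) < k)
    (fun i hi j hj => h0 i j (not_lt.1 hi) hj)]
  congr 1
  let e : Fin k ≃ {a : Fin r // (a : ℕ) < k} :=
    { toFun := fun c => ⟨Fin.castLE hk c, c.2⟩
      invFun := fun a => ⟨a.1, a.2⟩
      left_inv := fun c => rfl
      right_inv := fun a => rfl }
  rw [← Matrix.det_submatrix_equiv_self e]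
  rfl

theorem fc_apply {R : Type} [Zero R] {k : ℕ} (hk : k ≤ r) (M : Matrix (Fin r) (Fin r) R)
    (i : Fin r) (c : Fin k) : fc k M i c = M i (Fin.castLE hk c) := by
  simp only [fc, Matrix.of_apply]
  rw [dif_pos (lt_of_lt_of_le c.2 hk)]
  rfl

theorem fc_mul {R : Type} [CommRing R] {k : ℕ} (hk : k ≤ r) (A M : Matrix (Fin r) (Fin r) R) :
    fc k (A * M) = A * fc k M := by
  ext i c
  rw [fc_apply hk, Matrix.mul_apply, Matrix.mul_apply]
  exact Finset.sum_congr rfl fun j _ => by rw [fc_apply hk]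

theorem fc_map {R S : Type} [CommRing R] [CommRing S] (θ : R →+* S) {k : ℕ} (hk : k ≤ r)
    (M : Matrix (Fin r) (Fin r) R) : (fc k M).map θ = fc k (M.map θ) := by
  ext i c
  rw [fc_apply hk, Matrix.map_apply, fc_apply hk, Matrix.map_apply]

/-- columns times a block triangular matrix -/
theorem fc_mul_tri {k : ℕ} (hk : k ≤ r) (Z g : Matrix (Fin r) (Fin r) ℂ)
    (h0 : ∀ a c : Fin r, k ≤ (a : ℕ) → (c : ℕ) < k → g a c = 0) :
    fc k (Z * g) = fc k Z * g.submatrix (Fin.castLE hk) (Fin.castLE hk) := by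
  ext i c
  rw [fc_apply hk, Matrix.mul_apply, Matrix.mul_apply]
  symm
  refine Fintype.sum_of_injective (Fin.castLE hk) (Fin.castLE_injective hk) _ _ ?_ ?_
  · intro j hj
    have : k ≤ (j : ℕ) := by
      by_contra h
      exact hj ⟨⟨j, not_le.1 h⟩, rfl⟩
    rw [h0 j _ this c.2, mul_zero]
  · intro j
    rw [fc_apply hk]
    rfl

theorem eval_aeval' {σ τ : Type} {F : Type} [Field F] (W : τ → F) (f : σ → MvPolynomial τ F)
    (s : MvPolynomial σ F) : eval W (aeval f s) = eval (fun x => eval W (f x)) s := by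
  induction s using MvPolynomial.induction_on with
  | C a => simp
  | add p q hp hq => rw [map_add, map_add, hp, hq, map_add]
  | mul_X p n hp => rw [map_mul, map_mul, hp, aeval_X, map_mul, eval_X]

/-- multihomogeneity -/
theorem eval_scale {r' : Fin l → ℕ} {a : Fin l → ℕ} {s : MvPolynomial (Vr r') ℂ} (hs : IsMh a s)
    (c : Fin l → ℂ) (y : Vr r' → ℂ) :
    eval (fun x => c x.1 * y x) s = (∏ j, c j ^ a j) * eval y s := by
  rw [eval_eq, eval_eq, Finset.mul_sum]
  refine Finset.sum_congr rfl fun α hα => ?_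
  have h1 := hs α (mem_support_iff.1 hα)
  have h2 : ∏ x ∈ α.support, (c x.1 * y x) ^ α x =
      (∏ j, c j ^ a j) * ∏ x ∈ α.support, y x ^ α x := by
    have e1 : ∏ x ∈ α.support, (c x.1 * y x) ^ α x = ∏ x, (c x.1 * y x) ^ α x :=
      Finset.prod_subset (Finset.subset_univ _) fun x _ hx => by
        rw [Finsupp.notMem_support_iff.1 hx, pow_zero]
    have e2 : ∏ x ∈ α.support, y x ^ α x = ∏ x, y x ^ α x :=
      Finset.prod_subset (Finset.subset_univ _) fun x _ hx => by
        rw [Finsupp.notMem_support_iff.1 hx, pow_zero]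
    rw [e1, e2]
    simp_rw [mul_pow]
    rw [Finset.prod_mul_distrib]
    congr 1
    rw [Fintype.prod_sigma]
    refine Finset.prod_congr rfl fun j _ => ?_
    rw [← h1 j]
    show ∏ y, c j ^ α ⟨j, y⟩ = _
    rw [Finset.prod_pow_eq_pow_sum]
  rw [h2]
  ring

/-- the block upper triangular matrix -/
def Wm {R : Type} [Zero R] {blk : Fin r → ℕ} (W : VV blk → R) : Matrix (Fin r) (Fin r) R :=
  Matrix.of fun a b => if h : blk a ≤ blk b then W ⟨a, ⟨b, h⟩⟩ else 0

theorem Wm_bt {blk : Fin r → ℕ} (W : VV blk → ℂ) : (Wm W).BlockTriangular blk := by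
  intro i j hij
  simp only [Wm, Matrix.of_apply]
  rw [dif_neg (not_le.2 hij)]

theorem eval_vrow {blk : Fin r → ℕ} (W : VV blk → ℂ) (G : Matrix (Fin r) (Fin r) ℂ) (a c : Fin r) :
    eval W (vrow blk G a c) = (Wm W * G) a c := by
  simp only [vrow, Matrix.of_apply]
  rw [map_sum, Matrix.mul_apply]
  refine Fintype.sum_of_injective Subtype.val Subtype.val_injective _ _ ?_ ?_
  · intro j hj
    have : ¬ blk a ≤ blk j := fun h => hj ⟨⟨j, h⟩, rfl⟩
    simp only [Wm, Matrix.of_apply]
    rw [dif_neg this, zero_mul]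
  · intro j
    rw [map_mul, eval_C, eval_X]
    simp only [Wm, Matrix.of_apply]
    rw [dif_pos j.2, mul_comm]

/-- the determinants `det (e_S; V)` are the minors of the inverse of `V` -/
theorem det_minor {k : ℕ} (hk : k ≤ r) (V Vi : Matrix (Fin r) (Fin r) ℂ) (h : V * Vi = 1)
    (i : Fin (Rk k r)) :
    (Matrix.of fun (a c : Fin r) => if h : (a : ℕ) < k then
      (if c = sub k r i ⟨a, h⟩ then (1 : ℂ) else 0) else V a c).det * Vi.det =
      plu (fc k Vi) i := by
  rw [← Matrix.det_mul, det_two hk]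
  · have e1 : (Matrix.toSquareBlockProp ((Matrix.of fun (a c : Fin r) => if h : (a : ℕ) < k then
      (if c = sub k r i ⟨a, h⟩ then (1 : ℂ) else 0) else V a c) * Vi)
      (fun a : Fin r => ¬ (a : ℕ) < k)) = 1 := by
      ext a c
      have h1 : ((Matrix.of fun (a c : Fin r) => if h : (a : ℕ) < k then
        (if c = sub k r i ⟨a, h⟩ then (1 : ℂ) else 0) else V a c) * Vi) a.1 c.1 =
          (V * Vi) a.1 c.1 := by
        rw [Matrix.mul_apply, Matrix.mul_apply]
        refine Finset.sum_congr rfl fun b _ => ?_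
        rw [Matrix.of_apply, dif_neg a.2]
      show ((Matrix.of fun (a c : Fin r) => if h : (a : ℕ) < k then
        (if c = sub k r i ⟨a, h⟩ then (1 : ℂ) else 0) else V a c) * Vi) a.1 c.1 = _
      rw [h1, h, Matrix.one_apply, Matrix.one_apply]
      simp only [Subtype.ext_iff]
    rw [e1, Matrix.det_one, mul_one, plu]
    congr 1
    ext a c
    rw [Matrix.submatrix_apply, Matrix.submatrix_apply, Matrix.mul_apply, id, fc_apply hk]
    have ha : ((Fin.castLE hk a : Fin r) : ℕ) < k := a.2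
    have e2 : ∀ b, (Matrix.of fun (a c : Fin r) => if h : (a : ℕ) < k then
        (if c = sub k r i ⟨a, h⟩ then (1 : ℂ) else 0) else V a c) (Fin.castLE hk a) b *
        Vi b (Fin.castLE hk c) = if b = sub k r i a then Vi b (Fin.castLE hk c) else 0 := by
      intro b
      rw [Matrix.of_apply, dif_pos ha]
      show (if b = sub k r i a then (1:ℂ) else 0) * _ = _
      split_ifs <;> simp
    simp_rw [e2]
    simp
  · intro a c ha hc
    have h1 : ((Matrix.of fun (a c : Fin r) => if h : (a : ℕ) < k then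
        (if c = sub k r i ⟨a, h⟩ then (1 : ℂ) else 0) else V a c) * Vi) a c = (V * Vi) a c := by
      rw [Matrix.mul_apply, Matrix.mul_apply]
      refine Finset.sum_congr rfl fun b _ => ?_
      rw [Matrix.of_apply, dif_neg (not_lt.2 ha)]
    rw [h1, h, Matrix.one_apply, if_neg]
    intro hac
    rw [hac] at ha
    omega

theorem den : S_DEN := by
  intro r l k hk hk0 hkr blk hblk Y hY a s hs h0
  classical
  -- the general matrix
  set Wp : Matrix (Fin r) (Fin r) (MvPolynomial (VV blk) ℂ) := Wm fun x => X x with hWp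
  set D : MvPolynomial (VV blk) ℂ := Wp.det * ∏ j, (lead (k j) Wp.adjugate).det with hD
  have hmap : ∀ W : VV blk → ℂ, Wp.map (eval W) = Wm W := by
    intro W
    ext i j
    simp only [hWp, Wm, Matrix.map_apply, Matrix.of_apply]
    split_ifs <;> simp
  have hDe : ∀ W : VV blk → ℂ, eval W D =
      (Wm W).det * ∏ j, (lead (k j) (Wm W).adjugate).det := by
    intro W
    rw [hD, map_mul, map_prod, RingHom.map_det, RingHom.mapMatrix_apply, hmap]
    congr 1
    refine Finset.prod_congr rfl fun j _ => ?_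
    rw [RingHom.map_det, RingHom.mapMatrix_apply, lead_map, ← RingHom.mapMatrix_apply,
      RingHom.map_adjugate, RingHom.mapMatrix_apply, hmap]
  have hD0 : D ≠ 0 := by
    intro h
    have h1 := hDe fun x => if x.1 = x.2.1 then 1 else 0
    have h2 : Wm (fun x : VV blk => if x.1 = x.2.1 then (1:ℂ) else 0) = 1 := by
      ext i j
      simp only [Wm, Matrix.of_apply, Matrix.one_apply]
      by_cases hij : i = j
      · subst hij
        simp
      · simp [hij]
    rw [h, h2] at h1
    simp [lead_one] at h1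
  suffices h : aeval (pls k blk Y⁻¹) s * D = 0 from (mul_eq_zero.1 h).resolve_right hD0
  refine MvPolynomial.funext fun W => ?_
  rw [map_mul, map_zero]
  by_cases hDW : eval W D = 0
  · rw [hDW, mul_zero]
  refine mul_eq_zero_of_left ?_ _
  rw [hDe] at hDW
  have hW := left_ne_zero_of_mul hDW
  have hL : ∀ j, (lead (k j) (Wm W).adjugate).det ≠ 0 := fun j =>
    Finset.prod_ne_zero_iff.1 (right_ne_zero_of_mul hDW) j (Finset.mem_univ j)
  set Z : Matrix (Fin r) (Fin r) ℂ := (Wm W)⁻¹ with hZ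
  have hZd : Z.det ≠ 0 := by
    rw [hZ, Matrix.det_nonsing_inv, Ring.inverse_eq_inv']
    exact inv_ne_zero hW
  have hZbt : Z.BlockTriangular blk := bt_inv hW (Wm_bt W)
  have hZe : Z = ((Wm W).det)⁻¹ • (Wm W).adjugate := by
    rw [hZ, Matrix.inv_def, Ring.inverse_eq_inv']
  have hZL : ∀ j, (lead (k j) Z).det ≠ 0 := by
    intro j
    rw [hZe]
    exact lead_smul_det _ (inv_ne_zero hW) (hL j)
  -- the function `κ`
  have hex : ∀ b : Fin r, ∃ m, (b : ℕ) < m ∧ (m = r ∨ ∃ j, m = k j) := fun b =>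
    ⟨r, b.2, Or.inl rfl⟩
  set κ : Fin r → ℕ := fun b => Nat.find (hex b) with hκ
  have hκ1 : ∀ b : Fin r, (b : ℕ) < κ b := fun b => (Nat.find_spec (hex b)).1
  have hκ2 : ∀ b, κ b = r ∨ ∃ j, κ b = k j := fun b => (Nat.find_spec (hex b)).2
  have hκ3 : ∀ (b : Fin r) j, (b : ℕ) < k j → κ b ≤ k j := fun b j hb =>
    Nat.find_min' (hex b) ⟨hb, Or.inr ⟨j, rfl⟩⟩
  have hdet : ∀ b, (lead (κ b) Z).det ≠ 0 := by
    intro b
    rcases hκ2 b with h | ⟨j, h⟩
    · rw [h]
      have : lead r Z = Z := by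
        ext i j
        simp [lead]
      rw [this]
      exact hZd
    · rw [h]
      exact hZL j
  obtain ⟨g, hg1, hg2, hg3⟩ := factor hblk hZbt κ hκ1 hdet
  set y := Z * g with hy
  -- the point of the slice
  set x : FrF k blk → ℂ := fun e => y e.1.1 e.1.2 with hx
  have hyx : (yx k blk : Matrix (Fin r) (Fin r) (MvPolynomial (FrF k blk) ℂ)).map (eval x) = y := by
    ext p q
    rw [Matrix.map_apply]
    simp only [yx, Matrix.of_apply]
    by_cases hc : ∃ j, (q : ℕ) < k j ∧ k j ≤ (p : ℕ)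
    · obtain ⟨j, hj1, hj2⟩ := hc
      have hne : p ≠ q := fun h => by rw [h] at hj2; omega
      have hκp : κ q ≤ (p : ℕ) := (hκ3 q j hj1).trans hj2
      by_cases hb : blk p = blk q
      · rw [if_neg hne, dif_pos ⟨hb, j, hj1, hj2⟩, zero_add, eval_X]
      · rw [if_neg hne, dif_neg (fun h => hb h.1), zero_add, map_zero]
        by_contra h
        exact hb (hg2 p q hκp (Ne.symm h))
    · rw [dif_neg (fun h => hc h.2), add_zero]
      have hκp : (p : ℕ) < κ q := by
        by_contra h
        push Not at h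
        rcases hκ2 q with h1 | ⟨j, h1⟩
        · have := p.2
          omega
        · exact hc ⟨j, by rw [← h1]; exact hκ1 q, by rw [← h1]; exact h⟩
      rw [hg1 p q hκp]
      split_ifs <;> simp
  -- the determinants
  have hyd : y.det = 1 := by
    have hlt : y.BlockTriangular (OrderDual.toDual : Fin r → (Fin r)ᵒᵈ) := by
      intro i j hij
      have hij' : i < j := by simpa using hij
      rw [hg1 i j (lt_trans (Fin.lt_def.1 hij') (hκ1 j)), if_neg hij'.ne]
    rw [Matrix.det_of_isLowerTriangular y hlt]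
    refine Finset.prod_eq_one fun i _ => ?_
    rw [hg1 i i (hκ1 i), if_pos rfl]
  have hgd : g.det ≠ 0 := by
    intro h
    rw [hy, Matrix.det_mul, h, mul_zero] at hyd
    exact zero_ne_one hyd
  have hgt : ∀ j, ∀ a c : Fin r, k j ≤ (a : ℕ) → (c : ℕ) < k j → g a c = 0 := fun j a c ha hc =>
    hg3 a c ((hκ3 c j hc).trans ha)
  set gd : Fin l → ℂ := fun j =>
    (g.submatrix (Fin.castLE (hkr j).le) (Fin.castLE (hkr j).le)).det with hgdd
  have hgj : ∀ j, gd j ≠ 0 := by
    intro j h
    apply hgd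
    rw [det_two (hkr j).le g (hgt j)]
    have : (g.submatrix (Fin.castLE (hkr j).le) (Fin.castLE (hkr j).le)).det = 0 := h
    rw [this, zero_mul]
  -- the value on the slice is zero
  have hv1 : eval (fun z : Vr (fun j => Rk (k j) r) => plu (fc (k z.1) (Y * y)) z.2) s = 0 := by
    have h1 := congrArg (eval x) h0
    rw [eval_aeval', map_zero] at h1
    rw [← h1]
    congr 1
    congr 1
    funext z
    have h2 := congrFun (plu_map (eval x) (fc (k z.1) (Y.map MvPolynomial.C * yx k blk))) z.2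
    rw [← h2, fc_map _ (hkr z.1).le]
    have h3 : (Y.map MvPolynomial.C * yx k blk :
        Matrix (Fin r) (Fin r) (MvPolynomial (FrF k blk) ℂ)).map (eval x) = Y * y := by
      rw [Matrix.map_mul, hyx]
      congr 1
      ext i j
      simp
    rw [h3]
  have hv2 : eval (fun z : Vr (fun j => Rk (k j) r) => plu (fc (k z.1) (Y * Z)) z.2) s = 0 := by
    have h1 : ∀ z : Vr (fun j => Rk (k j) r), plu (fc (k z.1) (Y * y)) z.2 =
        gd z.1 * plu (fc (k z.1) (Y * Z)) z.2 := by
      intro z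
      rw [hy, ← Matrix.mul_assoc, fc_mul_tri (hkr z.1).le (Y * Z) g (hgt z.1), plu_mul_right]
      rfl
    simp_rw [h1] at hv1
    rw [eval_scale hs gd] at hv1
    refine (mul_eq_zero.1 hv1).resolve_left ?_
    exact Finset.prod_ne_zero_iff.2 fun j _ => pow_ne_zero _ (hgj j)
  -- the conclusion
  rw [eval_aeval']
  have hVV : (Wm W * Y⁻¹) * (Y * Z) = 1 := by
    calc (Wm W * Y⁻¹) * (Y * Z) = Wm W * (Y⁻¹ * Y) * Z := by simp only [Matrix.mul_assoc]
      _ = 1 := by rw [Matrix.nonsing_inv_mul _ hY.isUnit, Matrix.mul_one, hZ,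
        Matrix.mul_nonsing_inv _ hW.isUnit]
  have hYZ : (Y * Z).det ≠ 0 := by
    rw [Matrix.det_mul]; exact mul_ne_zero hY hZd
  have hp : ∀ z : Vr (fun j => Rk (k j) r), eval W (pls k blk Y⁻¹ z) =
      ((Y * Z).det)⁻¹ * plu (fc (k z.1) (Y * Z)) z.2 := by
    intro z
    have h1 := det_minor (hkr z.1).le (Wm W * Y⁻¹) (Y * Z) hVV z.2
    rw [← h1, mul_comm ((Y * Z).det)⁻¹, mul_assoc, mul_inv_cancel₀ hYZ, mul_one]
    simp only [pls]
    rw [RingHom.map_det, RingHom.mapMatrix_apply]
    congr 1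
    ext p q
    rw [Matrix.map_apply, Matrix.of_apply, Matrix.of_apply]
    split_ifs
    · simp
    · simp
    · exact eval_vrow W _ _ _
  simp_rw [hp]
  rw [eval_scale hs (fun _ => ((Y * Z).det)⁻¹), hv2, mul_zero]

end Pool.Agent.Helper41.FL
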