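import Pool.Agent.Helper9.FL.Stm
import Pool.Agent.Helper9.GR.CB

/-! Project FL, part of the package FSEC: the local expression of the Plücker polynomial -/

set_option autoImplicit false
set_option linter.unusedSectionVars false

namespace Pool.Agent.Helper41.FL.Id

open FF Module MvPolynomial Pool.Agent.Helper9.FJ Pool.Agent.Helper9.PP Pool.Agent.Helper9.GR
open Pool.Agent.Helper9.FL

variable {r l : ℕ} {F : Type} [Field F]

theorem det_two {R : Type} [CommRing R] {k : ℕ} (hk : k ≤ r) (M : Matrix (Fin r) (Fin r) R)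
    (h0 : ∀ a c : Fin r, k ≤ (a : ℕ) → (c : ℕ) < k → M a c = 0) :
    M.det = (M.submatrix (Fin.castLE hk) (Fin.castLE hk)).det *
      (M.toSquareBlockProp (fun a : Fin r => ¬ (a : ℕ) < k)).det := by
  rw [M.twoBlockTriangular_det (fun a : Fin r => (a : ℕ) < k)
    (fun i hi j hj => h0 i j (not_lt.1 hi) hj)]
  congr 1
  let e : Fin k ≃ {a : Fin r // (a : ℕ) < k} :=
    { toFun := fun c => ⟨Fin.castLE hk c, c.2⟩
      invFun := fun a => ⟨a.1, a.2⟩
      left_inv := fun c => rfl
      right_inv := fun a => rfl }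
  rw [← Matrix.det_submatrix_equiv_self e]
  rfl

theorem fc_apply {R : Type} [Zero R] {k : ℕ} (hk : k ≤ r) (M : Matrix (Fin r) (Fin r) R)
    (i : Fin r) (c : Fin k) : fc k M i c = M i (Fin.castLE hk c) := by
  simp only [fc, Matrix.of_apply]
  rw [dif_pos (lt_of_lt_of_le c.2 hk)]
  rfl

theorem fc_mul {R : Type} [CommRing R] {k : ℕ} (hk : k ≤ r) (A M : Matrix (Fin r) (Fin r) R) :
    fc k (A * M) = A * fc k M := by
  ext i c
  rw [fc_apply hk, Matrix.mul_apply, Matrix.mul_apply]
  exact Finset.sum_congr rfl fun j _ => by rw [fc_apply hk]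

theorem fc_map {R S : Type} [CommRing R] [CommRing S] (θ : R →+* S) {k : ℕ} (hk : k ≤ r)
    (M : Matrix (Fin r) (Fin r) R) : (fc k M).map θ = fc k (M.map θ) := by
  ext i c
  rw [fc_apply hk, Matrix.map_apply, fc_apply hk, Matrix.map_apply]

theorem eval_aeval' {σ τ : Type} (W : τ → F) (f : σ → MvPolynomial τ F)
    (s : MvPolynomial σ F) : eval W (aeval f s) = eval (fun x => eval W (f x)) s := by
  induction s using MvPolynomial.induction_on with
  | C a => simp
  | add p q hp hq => rw [_root_.map_add, _root_.map_add, hp, hq, _root_.map_add]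
  | mul_X p n hp => rw [_root_.map_mul, _root_.map_mul, hp, aeval_X, _root_.map_mul, eval_X]

/-- multihomogeneity -/
theorem eval_scale [Algebra ℂ F] {r' : Fin l → ℕ} {a : Fin l → ℕ} {s : MvPolynomial (Vr r') F}
    (hs : IsMh a s) (c : Fin l → F) (y : Vr r' → F) :
    eval (fun x => c x.1 * y x) s = (∏ j, c j ^ a j) * eval y s := by
  rw [eval_eq, eval_eq, Finset.mul_sum]
  refine Finset.sum_congr rfl fun α hα => ?_
  have h1 := hs α (mem_support_iff.1 hα)
  have h2 : ∏ x ∈ α.support, (c x.1 * y x) ^ α x =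
      (∏ j, c j ^ a j) * ∏ x ∈ α.support, y x ^ α x := by
    have e1 : ∏ x ∈ α.support, (c x.1 * y x) ^ α x = ∏ x, (c x.1 * y x) ^ α x :=
      Finset.prod_subset (Finset.subset_univ _) fun x _ hx => by
        rw [Finsupp.notMem_support_iff.1 hx, pow_zero]
    have e2 : ∏ x ∈ α.support, y x ^ α x = ∏ x, y x ^ α x :=
      Finset.prod_subset (Finset.subset_univ _) fun x _ hx => by
        rw [Finsupp.notMem_support_iff.1 hx, pow_zero]
    rw [e1, e2]
    simp_rw [mul_pow]
    rw [Finset.prod_mul_distrib]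
    congr 1
    rw [Fintype.prod_sigma]
    refine Finset.prod_congr rfl fun j _ => ?_
    rw [← h1 j]
    show ∏ y, c j ^ α ⟨j, y⟩ = _
    rw [Finset.prod_pow_eq_pow_sum]
  rw [h2]
  ring

theorem eval_scale' [Algebra ℂ F] {r' : Fin l → ℕ} {a : Fin l → ℕ} {s : MvPolynomial (Vr r') F}
    (hs : IsMh a s) (c : F) (y : Vr r' → F) :
    eval (fun x => c * y x) s = c ^ (∑ j, a j) * eval y s := by
  rw [eval_scale hs (fun _ => c) y, Finset.prod_pow_eq_pow_sum]

/-- the block upper triangular matrix -/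
def Wm {R : Type} [Zero R] {blk : Fin r → ℕ} (W : VV blk → R) : Matrix (Fin r) (Fin r) R :=
  Matrix.of fun a b => if h : blk a ≤ blk b then W ⟨a, ⟨b, h⟩⟩ else 0

theorem eval_vrow {blk : Fin r → ℕ} (W : VV blk → F) (G : Matrix (Fin r) (Fin r) F) (a c : Fin r) :
    eval W (vrow blk G a c) = (Wm W * G) a c := by
  simp only [vrow, Matrix.of_apply]
  rw [map_sum, Matrix.mul_apply]
  refine Fintype.sum_of_injective Subtype.val Subtype.val_injective _ _ ?_ ?_
  · intro j hj
    have : ¬ blk a ≤ blk j := fun h => hj ⟨⟨j, h⟩, rfl⟩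
    simp only [Wm, Matrix.of_apply]
    rw [dif_neg this, zero_mul]
  · intro j
    rw [_root_.map_mul, eval_C, eval_X]
    simp only [Wm, Matrix.of_apply]
    rw [dif_pos j.2, mul_comm]

/-- the determinants `det (e_S; V)` are the minors of the inverse of `V` -/
theorem det_minor {k : ℕ} (hk : k ≤ r) (V Vi : Matrix (Fin r) (Fin r) F) (h : V * Vi = 1)
    (i : Fin (Rk k r)) :
    (Matrix.of fun (a c : Fin r) => if h : (a : ℕ) < k then
      (if c = sub k r i ⟨a, h⟩ then (1 : F) else 0) else V a c).det * Vi.det =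
      plu (fc k Vi) i := by
  rw [← Matrix.det_mul, det_two hk]
  · have e1 : (Matrix.toSquareBlockProp ((Matrix.of fun (a c : Fin r) => if h : (a : ℕ) < k then
      (if c = sub k r i ⟨a, h⟩ then (1 : F) else 0) else V a c) * Vi)
      (fun a : Fin r => ¬ (a : ℕ) < k)) = 1 := by
      ext a c
      have h1 : ((Matrix.of fun (a c : Fin r) => if h : (a : ℕ) < k then
        (if c = sub k r i ⟨a, h⟩ then (1 : F) else 0) else V a c) * Vi) a.1 c.1 =
          (V * Vi) a.1 c.1 := by
        rw [Matrix.mul_apply, Matrix.mul_apply]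
        refine Finset.sum_congr rfl fun b _ => ?_
        rw [Matrix.of_apply, dif_neg a.2]
      show ((Matrix.of fun (a c : Fin r) => if h : (a : ℕ) < k then
        (if c = sub k r i ⟨a, h⟩ then (1 : F) else 0) else V a c) * Vi) a.1 c.1 = _
      rw [h1, h, Matrix.one_apply, Matrix.one_apply]
      simp only [Subtype.ext_iff]
    rw [e1, Matrix.det_one, mul_one, plu]
    congr 1
    ext a c
    rw [Matrix.submatrix_apply, Matrix.submatrix_apply, Matrix.mul_apply, id, fc_apply hk]
    have ha : ((Fin.castLE hk a : Fin r) : ℕ) < k := a.2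
    have e2 : ∀ b, (Matrix.of fun (a c : Fin r) => if h : (a : ℕ) < k then
        (if c = sub k r i ⟨a, h⟩ then (1 : F) else 0) else V a c) (Fin.castLE hk a) b *
        Vi b (Fin.castLE hk c) = if b = sub k r i a then Vi b (Fin.castLE hk c) else 0 := by
      intro b
      rw [Matrix.of_apply, dif_pos ha]
      show (if b = sub k r i a then (1:F) else 0) * _ = _
      split_ifs <;> simp
    simp_rw [e2]
    simp
  · intro a c ha hc
    have h1 : ((Matrix.of fun (a c : Fin r) => if h : (a : ℕ) < k then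
        (if c = sub k r i ⟨a, h⟩ then (1 : F) else 0) else V a c) * Vi) a c = (V * Vi) a c := by
      rw [Matrix.mul_apply, Matrix.mul_apply]
      refine Finset.sum_congr rfl fun b _ => ?_
      rw [Matrix.of_apply, dif_neg (not_lt.2 ha)]
    rw [h1, h, Matrix.one_apply, if_neg]
    intro hac
    rw [hac] at ha
    omega

/-- the value of a Plücker polynomial -/
theorem eval_pls [Algebra ℂ F] (k : Fin l → ℕ) (hr : ∀ j, k j < r) {blk : Fin r → ℕ}
    (G : Matrix (Fin r) (Fin r) F) {a : Fin l → ℕ} {s : MvPolynomial (Vr (fun j => Rk (k j) r)) F}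
    (hs : IsMh a s) (W : VV blk → F) (Vi : Matrix (Fin r) (Fin r) F) (hV : Wm W * G * Vi = 1) :
    eval W (aeval (pls k blk G) s) = (Wm W * G).det ^ (∑ j, a j) *
      eval (fun z : Vr (fun j => Rk (k j) r) => plu (fc (k z.1) Vi) z.2) s := by
  rw [eval_aeval', ← eval_scale' hs]
  congr 1
  congr 1
  funext z
  have h1 := det_minor (hr z.1).le (Wm W * G) Vi hV z.2
  have h2 : (Wm W * G).det * Vi.det = 1 := by
    rw [← Matrix.det_mul, hV, Matrix.det_one]
  rw [← h1, mul_comm, mul_assoc, mul_comm Vi.det, h2, mul_one]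
  simp only [pls]
  rw [RingHom.map_det, RingHom.mapMatrix_apply]
  congr 1
  ext p q
  rw [Matrix.map_apply, Matrix.of_apply, Matrix.of_apply]
  split_ifs
  · simp
  · simp
  · exact eval_vrow W _ _ _

/-- polynomials in the entries of block upper triangular matrices which agree at the invertible
matrices are equal -/
theorem eq_of_eval [Infinite F] {blk : Fin r → ℕ} {p q : MvPolynomial (VV blk) F}
    (h : ∀ W : VV blk → F, (Wm W).det ≠ 0 → eval W p = eval W q) : p = q := by
  classical
  set Wp : Matrix (Fin r) (Fin r) (MvPolynomial (VV blk) F) := Wm fun x => X x with hWp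
  have hmap : ∀ W : VV blk → F, Wp.map (eval W) = Wm W := by
    intro W
    ext i j
    simp only [hWp, Wm, Matrix.map_apply, Matrix.of_apply]
    split_ifs <;> simp
  have hDe : ∀ W : VV blk → F, eval W Wp.det = (Wm W).det := by
    intro W
    rw [RingHom.map_det, RingHom.mapMatrix_apply, hmap]
  have hD0 : Wp.det ≠ 0 := by
    intro h
    have h1 := hDe fun x => if x.1 = x.2.1 then 1 else 0
    have h2 : Wm (fun x : VV blk => if x.1 = x.2.1 then (1:F) else 0) = 1 := by
      ext i j
      simp only [Wm, Matrix.of_apply, Matrix.one_apply]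
      by_cases hij : i = j
      · subst hij
        simp
      · simp [hij]
    rw [h, h2] at h1
    simp at h1
  have h3 : (p - q) * Wp.det = 0 := by
    refine MvPolynomial.funext fun W => ?_
    rw [_root_.map_mul, _root_.map_zero, hDe]
    by_cases hW : (Wm W).det = 0
    · rw [hW, mul_zero]
    · rw [map_sub, h W hW, sub_self, zero_mul]
  exact sub_eq_zero.1 ((mul_eq_zero.1 h3).resolve_right hD0)

/-- **the local expression** -/
theorem subst_id {K : Type} [Field K] [Algebra ℂ K] [IsFF ℂ K] {r l : ℕ} (k : Fin l → ℕ)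
    (hr : ∀ j, k j < r) (E : Bundle K r) (h : HNd E) (a : Fin l → ℕ)
    (s : MvPolynomial (Vr (fun j => Rk (k j) r)) K) (hs : IsMh a s) (P : Place ℂ K)
    (Y U : Matrix (Fin r) (Fin r) K) (hYU : Y * U = 1) (hY : E.B P * h.G⁻¹ = Y * h.C P) :
    aeval (fun x : VV h.blk => ∑ y, MvPolynomial.C ((h.F x.1).B P y x.2) * X ⟨x.1, y⟩ :
        VV h.blk → MvPolynomial (VV h.blk) K) (aeval (pls k h.blk h.G) s) =
      MvPolynomial.C ((E.B P).det ^ (∑ j, a j)) *
        aeval (pls k h.blk U) (locM (fun j => wedge (k j) E) P s) := by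
  classical
  have hUY : U * Y = 1 := mul_eq_one_comm.1 hYU
  have hinf : Infinite K := Infinite.of_injective _ (FaithfulSMul.algebraMap_injective ℂ K)
  have hG := h.hG
  have hB := E.det_ne P
  have hCG : h.C P * h.G = U * E.B P := by
    calc h.C P * h.G = U * (Y * h.C P) * h.G := by rw [← Matrix.mul_assoc U, hUY, Matrix.one_mul]
      _ = U * (E.B P * h.G⁻¹) * h.G := by rw [hY]
      _ = U * E.B P * (h.G⁻¹ * h.G) := by simp only [Matrix.mul_assoc]
      _ = U * E.B P := by rw [Matrix.nonsing_inv_mul _ hG.isUnit, Matrix.mul_one]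
  refine eq_of_eval fun W hW => ?_
  rw [eval_aeval']
  -- the new point
  set W' : VV h.blk → K := fun x => eval W (∑ y, MvPolynomial.C ((h.F x.1).B P y x.2) *
    X ⟨x.1, y⟩ : MvPolynomial (VV h.blk) K) with hW'
  have hWm : Wm W' = Wm W * h.C P := by
    ext p q
    rw [Matrix.mul_apply]
    by_cases hpq : h.blk p ≤ h.blk q
    · have e1 : Wm W' p q = ∑ y : {b : Fin r // h.blk p ≤ h.blk b},
          (h.F p).B P y ⟨q, hpq⟩ * W ⟨p, y⟩ := by
        simp only [Wm, Matrix.of_apply]
        rw [dif_pos hpq]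
        simp only [hW', map_sum, _root_.map_mul, eval_C, eval_X]
      rw [e1]
      refine Fintype.sum_of_injective Subtype.val Subtype.val_injective _ _ ?_ ?_
      · intro j hj
        have : ¬ h.blk p ≤ h.blk j := fun h' => hj ⟨⟨j, h'⟩, rfl⟩
        simp only [Wm, Matrix.of_apply]
        rw [dif_neg this, zero_mul]
      · intro j
        rw [h.hF]
        simp only [Wm, Matrix.of_apply]
        rw [dif_pos j.2, mul_comm]
        rfl
    · have e1 : Wm W' p q = 0 := by
        simp only [Wm, Matrix.of_apply]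
        rw [dif_neg hpq]
      rw [e1]
      symm
      refine Finset.sum_eq_zero fun j _ => ?_
      by_cases hpj : h.blk p ≤ h.blk j
      · have : h.C P j q = 0 := by
          by_contra h'
          exact hpq (hpj.trans (h.htri P j q h'))
        rw [this, mul_zero]
      · simp only [Wm, Matrix.of_apply]
        rw [dif_neg hpj, zero_mul]
  have hWG : Wm W' * h.G = Wm W * U * E.B P := by
    rw [hWm, Matrix.mul_assoc, hCG, Matrix.mul_assoc]
  have hWi : Wm W * (Wm W)⁻¹ = 1 := Matrix.mul_nonsing_inv _ hW.isUnit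
  have hBi : E.B P * (E.B P)⁻¹ = 1 := Matrix.mul_nonsing_inv _ hB.isUnit
  have hV1 : Wm W' * h.G * ((E.B P)⁻¹ * (Y * (Wm W)⁻¹)) = 1 := by
    rw [hWG]
    calc Wm W * U * E.B P * ((E.B P)⁻¹ * (Y * (Wm W)⁻¹)) =
        Wm W * (U * ((E.B P * (E.B P)⁻¹) * (Y * (Wm W)⁻¹))) := by
          simp only [Matrix.mul_assoc]
      _ = Wm W * ((U * Y) * (Wm W)⁻¹) := by rw [hBi, Matrix.one_mul, Matrix.mul_assoc]
      _ = 1 := by rw [hUY, Matrix.one_mul, hWi]
  have hV2 : Wm W * U * (Y * (Wm W)⁻¹) = 1 := by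
    calc Wm W * U * (Y * (Wm W)⁻¹) = Wm W * ((U * Y) * (Wm W)⁻¹) := by
          simp only [Matrix.mul_assoc]
      _ = 1 := by rw [hUY, Matrix.one_mul, hWi]
  rw [eval_pls k hr h.G hs W' _ hV1, hWG, Matrix.det_mul, mul_pow]
  -- the right hand side
  have hLe : eval W (aeval (pls k h.blk U) (locM (fun j => wedge (k j) E) P s)) =
      (Wm W * U).det ^ (∑ j, a j) *
        eval (fun z : Vr (fun j => Rk (k j) r) =>
          plu (fc (k z.1) ((E.B P)⁻¹ * (Y * (Wm W)⁻¹))) z.2) s := by
    unfold locM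
    rw [eval_aeval', eval_aeval', ← eval_scale' hs]
    congr 1
    congr 1
    funext z
    simp only [map_sum, _root_.map_mul, eval_C, eval_X]
    have h3 : ∀ i : Fin (Rk (k z.1) r), eval W (pls k h.blk U ⟨z.1, i⟩) =
        (Wm W * U).det * plu (fc (k z.1) (Y * (Wm W)⁻¹)) i := by
      intro i
      have h1 := det_minor (hr z.1).le (Wm W * U) _ hV2 i
      have h2 : (Wm W * U).det * (Y * (Wm W)⁻¹).det = 1 := by
        rw [← Matrix.det_mul, hV2, Matrix.det_one]
      rw [← h1, mul_comm, mul_assoc, mul_comm (Y * (Wm W)⁻¹).det, h2, mul_one]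
      simp only [pls]
      rw [RingHom.map_det, RingHom.mapMatrix_apply]
      congr 1
      ext p q
      rw [Matrix.map_apply, Matrix.of_apply, Matrix.of_apply]
      split_ifs
      · simp
      · simp
      · exact eval_vrow W _ _ _
    simp_rw [h3]
    have h7 : plu (fc (k z.1) ((E.B P)⁻¹ * (Y * (Wm W)⁻¹))) z.2 =
        ∑ i, cpd (k z.1) (E.B P)⁻¹ z.2 i * plu (fc (k z.1) (Y * (Wm W)⁻¹)) i := by
      rw [fc_mul (hr z.1).le (E.B P)⁻¹ (Y * (Wm W)⁻¹), plu_mul]
      rfl
    rw [h7, Finset.mul_sum]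
    refine Finset.sum_congr rfl fun i _ => ?_
    have h4 : ((wedge (k z.1) E).B P)⁻¹ = cpd (k z.1) (E.B P)⁻¹ := cpd_inv _ hB
    rw [h4]
    ring
  rw [_root_.map_mul, eval_C, hLe]
  ring

/-- the polynomial is not zero if the restriction to the slice is not zero -/
theorem pls_ne {K : Type} [Field K] [Algebra ℂ K] [IsFF ℂ K] {r l : ℕ} (k : Fin l → ℕ)
    (hr : ∀ j, k j < r) (E : Bundle K r) (h : HNd E) (a : Fin l → ℕ)
    (s : MvPolynomial (Vr (fun j => Rk (k j) r)) K) (hs : IsMh a s) (P : Place ℂ K)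
    (Y U : Matrix (Fin r) (Fin r) K) (hYU : Y * U = 1) (hY : E.B P * h.G⁻¹ = Y * h.C P)
    (hsl : sl k h.blk E P Y s ≠ 0) : aeval (pls k h.blk h.G) s ≠ 0 := by
  classical
  intro h0
  have hUY : U * Y = 1 := mul_eq_one_comm.1 hYU
  have hinf : Infinite K := Infinite.of_injective _ (FaithfulSMul.algebraMap_injective ℂ K)
  have hG := h.hG
  have hB := E.det_ne P
  have hC0 : (h.C P).det ≠ 0 := by
    intro h'
    have h1 := congrArg Matrix.det hY
    rw [Matrix.det_mul, Matrix.det_mul, h', mul_zero, Matrix.det_nonsing_inv,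
      Ring.inverse_eq_inv'] at h1
    exact mul_ne_zero hB (inv_ne_zero hG) h1
  have hCG : h.C P * h.G = U * E.B P := by
    calc h.C P * h.G = U * (Y * h.C P) * h.G := by rw [← Matrix.mul_assoc U, hUY, Matrix.one_mul]
      _ = U * (E.B P * h.G⁻¹) * h.G := by rw [hY]
      _ = U * E.B P * (h.G⁻¹ * h.G) := by simp only [Matrix.mul_assoc]
      _ = U * E.B P := by rw [Matrix.nonsing_inv_mul _ hG.isUnit, Matrix.mul_one]
  apply hsl
  refine MvPolynomial.funext fun x => ?_
  rw [_root_.map_zero]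
  -- the matrix of the slice
  set y : Matrix (Fin r) (Fin r) K :=
    (yx k h.blk : Matrix (Fin r) (Fin r) (MvPolynomial (FrF k h.blk) K)).map (eval x) with hy
  have hya : ∀ p q, y p q = (if p = q then 1 else 0) +
      if h' : h.blk p = h.blk q ∧ ∃ j, (q : ℕ) < k j ∧ k j ≤ (p : ℕ) then x ⟨(p, q), h'⟩ else 0 := by
    intro p q
    rw [hy, Matrix.map_apply]
    simp only [yx, Matrix.of_apply, _root_.map_add]
    congr 1
    · split_ifs <;> simp
    · split_ifs <;> simp
  have hyd : y.det = 1 := by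
    have hlt : y.BlockTriangular (OrderDual.toDual : Fin r → (Fin r)ᵒᵈ) := by
      intro i j hij
      have hij' : i < j := by simpa using hij
      rw [hya, if_neg hij'.ne, dif_neg, zero_add]
      rintro ⟨-, m, h1, h2⟩
      have := Fin.lt_def.1 hij'
      omega
    rw [Matrix.det_of_isLowerTriangular y hlt]
    refine Finset.prod_eq_one fun i _ => ?_
    rw [hya, if_pos rfl, dif_neg, add_zero]
    rintro ⟨-, m, h1, h2⟩
    omega
  have hybt : y.BlockTriangular h.blk := by
    intro i j hij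
    have hne : i ≠ j := fun h' => absurd hij (by rw [h']; exact lt_irrefl _)
    rw [hya, if_neg hne, dif_neg, zero_add]
    rintro ⟨h1, -⟩
    omega
  have hyi : y⁻¹.BlockTriangular h.blk := by
    have : Invertible y := Matrix.invertibleOfIsUnitDet y (by rw [hyd]; exact isUnit_one)
    exact Matrix.blockTriangular_inv_of_blockTriangular hybt
  have hyu : IsUnit y.det := by rw [hyd]; exact isUnit_one
  -- the point
  have hCbt : (h.C P).BlockTriangular h.blk := by
    intro i j hij
    by_contra h'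
    exact absurd (h.htri P i j h') (not_le.2 hij)
  have hT : (y⁻¹ * h.C P).BlockTriangular h.blk := hyi.mul hCbt
  set W : VV h.blk → K := fun z => (y⁻¹ * h.C P) z.1 z.2.1 with hW
  have hWm : Wm W = y⁻¹ * h.C P := by
    ext p q
    simp only [Wm, Matrix.of_apply]
    by_cases hpq : h.blk p ≤ h.blk q
    · rw [dif_pos hpq]
    · rw [dif_neg hpq, hT (not_le.1 hpq)]
  have hV : Wm W * h.G * ((E.B P)⁻¹ * (Y * y)) = 1 := by
    have hBi : E.B P * (E.B P)⁻¹ = 1 := Matrix.mul_nonsing_inv _ hB.isUnit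
    calc Wm W * h.G * ((E.B P)⁻¹ * (Y * y)) = y⁻¹ * (h.C P * h.G) * ((E.B P)⁻¹ * (Y * y)) := by
          rw [hWm]; simp only [Matrix.mul_assoc]
      _ = y⁻¹ * (U * ((E.B P * (E.B P)⁻¹) * (Y * y))) := by
          rw [hCG]; simp only [Matrix.mul_assoc]
      _ = y⁻¹ * ((U * Y) * y) := by rw [hBi, Matrix.one_mul, Matrix.mul_assoc U]
      _ = 1 := by rw [hUY, Matrix.one_mul, Matrix.nonsing_inv_mul _ hyu]
  have h1 := eval_pls k hr h.G hs W _ hV
  rw [h0, _root_.map_zero] at h1
  have h2 : (Wm W * h.G).det ≠ 0 := by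
    intro h'
    have h3 := congrArg Matrix.det hV
    rw [Matrix.det_mul, h', zero_mul, Matrix.det_one] at h3
    exact zero_ne_one h3
  have h3 := (mul_eq_zero.1 h1.symm).resolve_left (pow_ne_zero _ h2)
  -- the value of the restriction to the slice
  unfold sl
  rw [eval_aeval', ← h3]
  congr 1
  congr 1
  funext z
  have h7 : plu (fc (k z.1) ((E.B P)⁻¹ * (Y * y))) z.2 =
      ∑ i, cpd (k z.1) (E.B P)⁻¹ z.2 i * plu (fc (k z.1) (Y * y)) i := by
    rw [fc_mul (hr z.1).le (E.B P)⁻¹ (Y * y), plu_mul]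
    rfl
  rw [h7, map_sum]
  refine Finset.sum_congr rfl fun i _ => ?_
  have h4 : ((wedge (k z.1) E).B P)⁻¹ = cpd (k z.1) (E.B P)⁻¹ := cpd_inv _ hB
  rw [h4, _root_.map_mul, eval_C]
  congr 1
  have h5 := congrFun (plu_map (eval x)
    (fc (k z.1) (Y.map MvPolynomial.C * yx k h.blk))) i
  rw [← h5, fc_map _ (hr z.1).le]
  have h6 : (Y.map MvPolynomial.C * yx k h.blk :
      Matrix (Fin r) (Fin r) (MvPolynomial (FrF k h.blk) K)).map (eval x) = Y * y := by
    rw [Matrix.map_mul, ← hy]
    congr 1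
    ext i j
    simp
  rw [h6]

end Pool.Agent.Helper41.FL.Id
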